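import Mathlib
import Pool.Agent.H.MP_fc2771_gt.Main

set_option autoImplicit false

namespace Pool.Agent.Results.MP_f5469c_gt.Null

theorem result (G : AddSubgroup ℝ) (hG : Dense (G : Set ℝ))
    (h : MeasureTheory.volume (G : Set ℝ) = 0) :
    ∃ f : G → G, f.Bijective ∧ (∀ x y, dist (f x) (f y) ≤ dist x y) ∧
      ¬ ∀ x y, dist (f x) (f y) = dist x y :=
  Pool.Agent.H.MP_fc2771_gt.main hG h

end Pool.Agent.Results.MP_f5469c_gt.Null
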